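import Mathlib
import Pool.Agent.H200.Assouad

set_option autoImplicit false

/-!
# Graphs in the big `ω`-space do not typically have Assouad dimension two
-/

namespace Pool.Agent.Results.MP_68e822_an.BallOfSmallDimension

open Set Metric Filter Topology Pool.Agent.H200.Assouad

theorem result : ∃ ω : Modulus, (∀ t, ω.toFun t = √t) ∧ ConcaveOn ℝ (Icc 0 1) ω.toFun ∧
    Tendsto (fun t => ω.toFun t / t) (𝓝[>] 0) atTop ∧
    (∃ (f : Space ω) (ε s : ℝ), 0 < ε ∧ s < 2 ∧
      ∀ g ∈ ball f ε, assouadDim (graph g.toFun) ≤ s) ∧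
    ¬ IsMeagre {f : Space ω | assouadDim (graph f.toFun) < 2} ∧
    {f : Space ω | assouadDim (graph f.toFun) = 2} ∉ residual (Space ω) := by
  obtain ⟨s, hs0, hs2, hs⟩ := ball_bound
  have hball : ∀ g ∈ ball oscPoint (1 / 36), assouadDim (graph g.toFun) ≤ s :=
    fun g hg => assouadDim_le hs0 (hs g hg)
  refine ⟨sqrtModulus, fun _ => rfl, concave_sqrt, tendsto_sqrt_div,
    ⟨oscPoint, 1 / 36, s, by norm_num, hs2, hball⟩, ?_, ?_⟩
  · intro hm
    refine not_residual (f := oscPoint) (ε := 1 / 36) (by norm_num) ?_ hm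
    intro g hg hg2
    exact hg2 ((hball g hg).trans_lt hs2)
  · refine not_residual (f := oscPoint) (ε := 1 / 36) (by norm_num) ?_
    intro g hg hg2
    have h1 : assouadDim (graph g.toFun) = 2 := hg2
    have h2 := hball g hg
    linarith

end Pool.Agent.Results.MP_68e822_an.BallOfSmallDimension
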